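import Mathlib
import Pool.Agent.LibTwT.PF6

set_option autoImplicit false

namespace Pool.Agent.OldA1107.QuadraticTwists

/-- Let `A`, `B` be integers with `4 A^3 + 27 B^2 ≠ 0` such that `x^3 + A x + B` has exactly one
rational root, and let `ε > 0`. The proportion of the nonzero integers `D`, `|D| ≤ N`, for which the
quadratic twist `y^2 = x^3 + A D^2 x + B D^3` has an integral point `(x, y)` with
`|x| > |D|^(2+ε)` or `|y| > |D|^(3+ε)` tends to `0` as `N → ∞`. -/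
theorem result (A B : ℤ) (hd : 4 * A ^ 3 + 27 * B ^ 2 ≠ 0)
    (hr : ∃! r : ℚ, r ^ 3 + A * r + B = 0) (ε : ℝ) (hε : 0 < ε) :
    Filter.Tendsto (fun N : ℕ => (({D : ℤ | D ≠ 0 ∧ |D| ≤ N ∧ ∃ x y : ℤ,
        y ^ 2 = x ^ 3 + A * D ^ 2 * x + B * D ^ 3 ∧
        (|(D : ℝ)| ^ (2 + ε) < |(x : ℝ)| ∨ |(D : ℝ)| ^ (3 + ε) < |(y : ℝ)|)} : Set ℤ).ncard : ℝ) / N)
      Filter.atTop (nhds 0) :=
  TwT.twist_all A B hd hr ε hε

end Pool.Agent.OldA1107.QuadraticTwists
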